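import Mathlib

/-!
A language with a rational (over `ℕ`) characteristic series in commutative variables whose
complement has a non-rational one.
-/

namespace Pool.Agent.Results.MP_2e66a2_lc.ComplementNotRational

open MvPowerSeries

/-- The Parikh vector of a word. -/
noncomputable def parikh {σ : Type} (w : List σ) : σ →₀ ℕ := (w.map fun a => Finsupp.single a 1).sum

/-- The characteristic series in commutative variables: the coefficient of a monomial is the
number of words of `L` with this Parikh vector. -/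
noncomputable def chi {σ : Type} (L : Set (List σ)) : MvPowerSeries σ ℕ :=
  fun m => Nat.card {w : List σ // w ∈ L ∧ parikh w = m}

/-- `T = ∑_{k ≥ 0} S^k`: every coefficient of `T` is the eventual value of the coefficient of
the partial sums. -/
def IsStar {σ : Type} (S T : MvPowerSeries σ ℕ) : Prop :=
  ∀ m, ∃ N, ∀ n ≥ N, coeff m T = coeff m (∑ k ∈ Finset.range n, S ^ k)

/-- Rational series over `ℕ`. -/
inductive Rat {σ : Type} : MvPowerSeries σ ℕ → Prop where
  | fin (S : MvPowerSeries σ ℕ) (h : {m | coeff m S ≠ 0}.Finite) : Rat S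
  | add (S T : MvPowerSeries σ ℕ) : Rat S → Rat T → Rat (S + T)
  | mul (S T : MvPowerSeries σ ℕ) : Rat S → Rat T → Rat (S * T)
  | star (S T : MvPowerSeries σ ℕ) (h0 : constantCoeff S = 0) (hT : IsStar S T) : Rat S → Rat T

section algebra

variable {σ : Type}

theorem pow_zero_coeff {S : MvPowerSeries σ ℕ} (h0 : constantCoeff S = 0) {m : σ →₀ ℕ} {k : ℕ}
    (hk : m.degree < k) : coeff m (S ^ k) = 0 := by
  apply coeff_of_lt_order
  refine lt_of_lt_of_le ?_ (le_order_pow_of_constantCoeff_eq_zero k h0)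
  exact_mod_cast hk

/-- The star exists. -/
theorem exists_star (S : MvPowerSeries σ ℕ) (h0 : constantCoeff S = 0) : ∃ T, IsStar S T := by
  refine ⟨fun m => coeff m (∑ k ∈ Finset.range (m.degree + 1), S ^ k), fun m =>
    ⟨m.degree + 1, fun n hn => ?_⟩⟩
  show coeff m (∑ k ∈ Finset.range (m.degree + 1), S ^ k) = _
  rw [map_sum, map_sum]
  refine Finset.sum_subset (Finset.range_mono hn) fun k _ hk => ?_
  apply pow_zero_coeff h0
  simpa using hk

theorem star_eq {S T : MvPowerSeries σ ℕ} (hT : IsStar S T) : T = 1 + S * T := by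
  classical
  ext m
  rw [map_add, coeff_mul]
  obtain ⟨N, hN⟩ := hT m
  choose N' hN' using hT
  set B := (N + 1) + ∑ p ∈ Finset.HasAntidiagonal.antidiagonal m, N' p.2 with hB
  have h1 : coeff m T = coeff m (∑ k ∈ Finset.range (B + 1), S ^ k) := hN _ (by omega)
  rw [h1, Finset.sum_range_succ', pow_zero, map_add, add_comm]
  congr 1
  have h2 : ∑ k ∈ Finset.range B, S ^ (k + 1) = S * ∑ k ∈ Finset.range B, S ^ k := by
    rw [Finset.mul_sum]
    exact Finset.sum_congr rfl fun k _ => pow_succ' _ _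
  rw [h2, coeff_mul]
  refine Finset.sum_congr rfl fun p hp => ?_
  rw [← hN' p.2 B]
  have : N' p.2 ≤ ∑ p ∈ Finset.HasAntidiagonal.antidiagonal m, N' p.2 :=
    Finset.single_le_sum (f := fun p : (σ →₀ ℕ) × (σ →₀ ℕ) => N' p.2)
      (fun _ _ => Nat.zero_le _) hp
  omega

/-- Uniqueness of solutions of `y = c + s y`. -/
theorem uniq {s c y z : MvPowerSeries σ ℕ} (h0 : constantCoeff s = 0) (hy : y = c + s * y)
    (hz : z = c + s * z) : y = z := by
  have hinj : Function.Injective (map (σ := σ) (Nat.castRingHom ℤ)) := by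
    intro a b h
    ext m
    have := congrArg (coeff m) h
    rw [coeff_map, coeff_map] at this
    exact Nat.cast_injective (R := ℤ) this
  apply hinj
  set Y := map (σ := σ) (Nat.castRingHom ℤ) y
  set Z := map (σ := σ) (Nat.castRingHom ℤ) z
  set C' := map (σ := σ) (Nat.castRingHom ℤ) c
  set S' := map (σ := σ) (Nat.castRingHom ℤ) s
  have hY : Y = C' + S' * Y := by
    have := congrArg (map (σ := σ) (Nat.castRingHom ℤ)) hy
    rwa [map_add, map_mul] at this
  have hZ : Z = C' + S' * Z := by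
    have := congrArg (map (σ := σ) (Nat.castRingHom ℤ)) hz
    rwa [map_add, map_mul] at this
  have h1 : (1 - S') * (Y - Z) = 0 := by linear_combination hY - hZ
  have h2 : (1 - S') ≠ 0 := by
    intro h
    have h3 := congrArg constantCoeff h
    have h4 : constantCoeff S' = 0 := by
      show constantCoeff (map (σ := σ) (Nat.castRingHom ℤ) s) = 0
      rw [constantCoeff_map, h0]; simp
    rw [map_sub, map_one, h4] at h3
    simp at h3
  rcases mul_eq_zero.1 h1 with h | h
  · exact absurd h h2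
  · exact sub_eq_zero.1 h

theorem Rat.sum {ι : Type} (s : Finset ι) (f : ι → MvPowerSeries σ ℕ) (h : ∀ i ∈ s, Rat (f i)) :
    Rat (∑ i ∈ s, f i) := by
  classical
  induction s using Finset.induction_on with
  | empty => exact Rat.fin _ (by simp)
  | insert a s ha ih =>
    rw [Finset.sum_insert ha]
    exact Rat.add _ _ (h a (Finset.mem_insert_self _ _))
      (ih fun i hi => h i (Finset.mem_insert_of_mem hi))

/-- Proper linear systems with rational coefficients have rational solutions. -/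
theorem system : ∀ (n : ℕ) (M : Fin n → Fin n → MvPowerSeries σ ℕ)
    (b x : Fin n → MvPowerSeries σ ℕ), (∀ i j, Rat (M i j)) →
    (∀ i j, constantCoeff (M i j) = 0) → (∀ i, Rat (b i)) →
    (∀ i, x i = b i + ∑ j, M i j * x j) → ∀ i, Rat (x i) := by
  intro n
  induction n with
  | zero => intro M b x _ _ _ _ i; exact i.elim0
  | succ n ih =>
    intro M b x hM hM0 hb hx
    obtain ⟨T, hT⟩ := exists_star (M 0 0) (hM0 0 0)
    have hTr : Rat T := Rat.star _ _ (hM0 0 0) hT (hM 0 0)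
    have hTe := star_eq hT
    -- solve for x 0
    have hx0 : x 0 = T * (b 0 + ∑ j : Fin n, M 0 j.succ * x j.succ) := by
      refine uniq (s := M 0 0) (c := b 0 + ∑ j : Fin n, M 0 j.succ * x j.succ) (hM0 0 0) ?_ ?_
      · have := hx 0
        rw [Fin.sum_univ_succ] at this
        nth_rw 1 [this]
        ring
      · nth_rw 1 [hTe]
        ring
    have hrec : ∀ i : Fin n, Rat (x i.succ) := by
      refine ih (fun i j => M i.succ j.succ + M i.succ 0 * T * M 0 j.succ)
        (fun i => b i.succ + M i.succ 0 * T * b 0) (fun i => x i.succ) ?_ ?_ ?_ ?_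
      · intro i j
        exact Rat.add _ _ (hM _ _) (Rat.mul _ _ (Rat.mul _ _ (hM _ _) hTr) (hM _ _))
      · intro i j
        rw [map_add, map_mul, map_mul, hM0, hM0]
        simp
      · intro i
        exact Rat.add _ _ (hb _) (Rat.mul _ _ (Rat.mul _ _ (hM _ _) hTr) (hb _))
      · intro i
        have h1 := hx i.succ
        rw [Fin.sum_univ_succ, hx0] at h1
        show x i.succ = _
        rw [h1]
        simp only [add_mul, Finset.sum_add_distrib, mul_add, Finset.mul_sum]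
        simp only [← mul_assoc]
        ring
    intro i
    refine Fin.cases ?_ hrec i
    rw [hx0]
    exact Rat.mul _ _ hTr (Rat.add _ _ (hb _) (Rat.sum _ _ fun j _ =>
      Rat.mul _ _ (hM _ _) (hrec j)))

end algebra

/-! ### Counting words -/

section words

variable {σ : Type}

@[simp] theorem parikh_nil : parikh ([] : List σ) = 0 := rfl

@[simp] theorem parikh_cons (a : σ) (w : List σ) :
    parikh (a :: w) = Finsupp.single a 1 + parikh w := by
  simp [parikh]

theorem degree_parikh (w : List σ) : (parikh w).degree = w.length := by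
  induction w with
  | nil => simp
  | cons a w ih => rw [parikh_cons, map_add, ih]; simp [add_comm]

theorem finite_parikh [Finite σ] (m : σ →₀ ℕ) : {w : List σ | parikh w = m}.Finite := by
  have : {w : List σ | parikh w = m} ⊆ {w : List σ | w.length ≤ m.degree} := by
    rintro w rfl
    exact (degree_parikh w).ge
  exact (List.finite_length_le σ _).subset this

theorem chi_apply (L : Set (List σ)) (m : σ →₀ ℕ) :
    coeff m (chi L) = {w : List σ | w ∈ L ∧ parikh w = m}.ncard := rfl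

/-- `χ` of all words satisfies `U = 1 + (∑ letters) U`. -/
theorem chi_univ_eq : chi (Set.univ : Set (List (Fin 2))) =
    1 + (X 0 + X 1) * chi (Set.univ : Set (List (Fin 2))) := by
  classical
  ext m
  rw [map_add, add_mul, map_add]
  have hX : ∀ a : Fin 2, coeff m (X a * chi (Set.univ : Set (List (Fin 2)))) =
      {w : List (Fin 2) | Finsupp.single a 1 + parikh w = m}.ncard := by
    intro a
    rw [X_def, coeff_monomial_mul]
    split_ifs with h
    · rw [one_mul, chi_apply]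
      congr 1
      ext w
      simp only [Set.mem_univ, true_and, Set.mem_ofPred_eq]
      constructor
      · intro h1; rw [h1]; exact add_tsub_cancel_of_le h
      · intro h1; rw [← h1]; exact (add_tsub_cancel_left _ _).symm
    · symm
      rw [Set.ncard_eq_zero (by
        refine (finite_parikh (σ := Fin 2) (m - Finsupp.single a 1)).subset fun w hw => ?_
        simp only [Set.mem_ofPred_eq] at hw ⊢
        rw [← hw]; exact (add_tsub_cancel_left _ _).symm)]
      ext w
      simp only [Set.mem_ofPred_eq, Set.mem_empty_iff_false, iff_false]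
      intro h1
      exact h (h1 ▸ le_self_add)
  rw [hX, hX, chi_apply, coeff_one]
  have hset : {w : List (Fin 2) | w ∈ Set.univ ∧ parikh w = m} =
      (if m = 0 then {[]} else ∅) ∪
      ((List.cons 0 '' {w : List (Fin 2) | Finsupp.single 0 1 + parikh w = m}) ∪
       (List.cons 1 '' {w : List (Fin 2) | Finsupp.single 1 1 + parikh w = m})) := by
    ext w
    simp only [Set.mem_univ, true_and, Set.mem_ofPred_eq, Set.mem_union, Set.mem_image]
    constructor
    · intro h
      cases w with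
      | nil =>
        left
        rw [parikh_nil] at h
        rw [if_pos h.symm]
        rfl
      | cons a w =>
        right
        rw [parikh_cons] at h
        fin_cases a
        · exact Or.inl ⟨w, h, rfl⟩
        · exact Or.inr ⟨w, h, rfl⟩
    · rintro (h | ⟨v, hv, rfl⟩ | ⟨v, hv, rfl⟩)
      · split_ifs at h with h0
        · rw [Set.mem_singleton_iff.1 h, parikh_nil, h0]
        · exact absurd h (Set.notMem_empty _)
      · rw [parikh_cons]; exact hv
      · rw [parikh_cons]; exact hv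
  have hfin : ∀ a : Fin 2, (List.cons a '' {w : List (Fin 2) |
      Finsupp.single a 1 + parikh w = m}).Finite := by
    intro a
    refine (finite_parikh (σ := Fin 2) m).subset ?_
    rintro _ ⟨w, hw, rfl⟩
    show parikh (a :: w) = m
    rw [parikh_cons]; exact hw
  rw [hset, Set.ncard_union_eq _ _ ((hfin 0).union (hfin 1)), Set.ncard_union_eq _ (hfin 0) (hfin 1),
    Set.ncard_image_of_injective _ (List.cons_injective), Set.ncard_image_of_injective _
      (List.cons_injective)]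
  · congr 1
    split_ifs with h
    · simp
    · simp
  · rw [Set.disjoint_left]
    rintro _ ⟨v, hv, rfl⟩ ⟨u, hu, h⟩
    simp at h
  · rw [Set.disjoint_left]
    rintro w hw hw2
    split_ifs at hw with h
    · rw [Set.mem_singleton_iff.1 hw] at hw2
      rcases hw2 with ⟨v, -, hv⟩ | ⟨v, -, hv⟩
      · exact List.cons_ne_nil _ _ hv
      · exact List.cons_ne_nil _ _ hv
    · exact Set.notMem_empty _ hw
  · split_ifs <;> simp

end words

/-! ### Series in one monomial -/

/-- the exponent of `t = a² b³` -/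
noncomputable def tau : Fin 2 →₀ ℕ := Finsupp.single 0 2 + Finsupp.single 1 3

open Classical in
/-- `∑ u n t^n` -/
noncomputable def ser (u : ℕ → ℕ) : MvPowerSeries (Fin 2) ℕ :=
  fun m => if m = (m 0 / 2) • tau then u (m 0 / 2) else 0

theorem tau_zero : tau 0 = 2 := by simp [tau]

theorem coeff_ser (u : ℕ → ℕ) (n : ℕ) : coeff (n • tau) (ser u) = u n := by
  have h : (n • tau) 0 / 2 = n := by
    rw [Finsupp.smul_apply, tau_zero, smul_eq_mul]; omega
  show (if n • tau = ((n • tau) 0 / 2) • tau then u ((n • tau) 0 / 2) else 0) = u n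
  rw [h, if_pos rfl]

theorem coeff_ser_ne (u : ℕ → ℕ) (m : Fin 2 →₀ ℕ) (h : ∀ n : ℕ, m ≠ n • tau) :
    coeff m (ser u) = 0 := if_neg (h _)

theorem ser_step (u : ℕ → ℕ) :
    ser u = C (u 0) + monomial tau 1 * ser (fun n => u (n + 1)) := by
  classical
  ext m
  rw [map_add, coeff_monomial_mul, coeff_C]
  by_cases hm : ∃ n : ℕ, m = n • tau
  · obtain ⟨n, rfl⟩ := hm
    rw [coeff_ser]
    cases n with
    | zero =>
      have h1 : ¬ (tau ≤ (0 : ℕ) • tau) := by
        intro h
        have := h 0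
        simp [tau] at this
      rw [if_pos (by simp), if_neg h1, add_zero]
    | succ n =>
      have h1 : tau ≤ (n + 1) • tau := by rw [succ_nsmul]; exact le_add_self
      have h2 : (n + 1) • tau - tau = n • tau := by rw [succ_nsmul]; exact add_tsub_cancel_right _ _
      have h3 : ¬ ((n + 1) • tau = 0) := by
        intro h
        have := congrArg (fun f => f 0) h
        simp [tau] at this
      rw [if_pos h1, h2, coeff_ser, if_neg h3, one_mul, zero_add]
  · push Not at hm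
    rw [coeff_ser_ne u m hm]
    have h1 : m ≠ 0 := by
      intro h
      exact hm 0 (by rw [h, zero_smul])
    rw [if_neg h1]
    split_ifs with h2
    · have h3 : coeff (m - tau) (ser fun n => u (n + 1)) = 0 := by
        apply coeff_ser_ne
        intro n hn
        apply hm (n + 1)
        rw [succ_nsmul, ← hn]
        exact (tsub_add_cancel_of_le h2).symm
      rw [h3, mul_zero, add_zero]
    · rfl

theorem ser_sum {ι : Type} (s : Finset ι) (c : ι → ℕ) (u : ι → ℕ → ℕ) :
    ser (fun n => ∑ i ∈ s, c i * u i n) = ∑ i ∈ s, C (c i) * ser (u i) := by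
  classical
  ext m
  rw [map_sum]
  simp only [coeff_C_mul]
  by_cases hm : ∃ n : ℕ, m = n • tau
  · obtain ⟨n, rfl⟩ := hm
    simp only [coeff_ser]
  · push Not at hm
    rw [coeff_ser_ne _ m hm]
    symm
    refine Finset.sum_eq_zero fun i _ => ?_
    rw [coeff_ser_ne _ m hm, mul_zero]

theorem ser_add (u v : ℕ → ℕ) : ser (fun n => u n + v n) = ser u + ser v := by
  classical
  ext m
  rw [map_add]
  by_cases hm : ∃ n : ℕ, m = n • tau
  · obtain ⟨n, rfl⟩ := hm
    simp only [coeff_ser]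
  · push Not at hm
    rw [coeff_ser_ne _ m hm, coeff_ser_ne _ m hm, coeff_ser_ne _ m hm]

/-! ### The sequences -/

/-- real and imaginary part of `(1 + 2i)^n` -/
def xy : ℕ → ℤ × ℤ
  | 0 => (1, 0)
  | n + 1 => ((xy n).1 - 2 * (xy n).2, 2 * (xy n).1 + (xy n).2)

/-- the transition matrix of the seven sequences -/
def NN : Fin 7 → Fin 7 → ℕ := ![
  ![1, 4, 4, 0, 0, 0, 1],
  ![4, 1, 0, 4, 0, 0, 1],
  ![0, 2, 0, 3, 2, 0, 3],
  ![2, 0, 3, 0, 0, 2, 3],
  ![0, 0, 0, 4, 1, 4, 1],
  ![0, 0, 4, 0, 4, 1, 1],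
  ![0, 0, 0, 0, 0, 0, 10]]

/-- the seven sequences -/
def vv : ℕ → Fin 7 → ℕ
  | 0 => ![0, 1, 1, 1, 2, 1, 1]
  | n + 1 => fun i => ∑ j, NN i j * vv n j

/-- what they are -/
def tgt (n : ℕ) : Fin 7 → ℤ :=
  let x := (xy n).1
  let y := (xy n).2
  ![10 ^ n - x ^ 2, 10 ^ n - y ^ 2, 10 ^ n + x * y, 10 ^ n - x * y, 10 ^ n + x ^ 2,
    10 ^ n + y ^ 2, 10 ^ n]

theorem vv_eq (n : ℕ) : ∀ i, (vv n i : ℤ) = tgt n i := by
  induction n with
  | zero => intro i; fin_cases i <;> simp [vv, tgt, xy]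
  | succ n ih =>
    intro i
    have h0 := ih 0
    have h1 := ih 1
    have h2 := ih 2
    have h3 := ih 3
    have h4 := ih 4
    have h5 := ih 5
    have h6 := ih 6
    simp only [tgt] at h0 h1 h2 h3 h4 h5 h6
    simp at h0 h1 h2 h3 h4 h5 h6
    fin_cases i <;>
    · simp [vv, NN, Fin.sum_univ_succ, tgt, xy, h0, h1, h2, h3, h4, h5, h6, pow_succ]
      ring


/-! ### Rationality of the complement part -/

section rational

variable {σ : Type}

theorem Rat.monomial (m : σ →₀ ℕ) (c : ℕ) : Rat (MvPowerSeries.monomial m c) := by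
  classical
  refine Rat.fin _ ((Set.finite_singleton m).subset fun k hk => ?_)
  simp only [Set.mem_ofPred_eq, coeff_monomial] at hk
  by_contra h
  exact hk (if_neg h)

theorem Rat.C (c : ℕ) : Rat (MvPowerSeries.C c : MvPowerSeries σ ℕ) := Rat.monomial 0 c

theorem Rat.one : Rat (1 : MvPowerSeries σ ℕ) := Rat.monomial 0 1

theorem Rat.X (i : σ) : Rat (MvPowerSeries.X i : MvPowerSeries σ ℕ) := Rat.monomial _ _

theorem Rat.pow {S : MvPowerSeries σ ℕ} (h : Rat S) (n : ℕ) : Rat (S ^ n) := by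
  induction n with
  | zero => rw [pow_zero]; exact Rat.one
  | succ n ih => rw [pow_succ]; exact Rat.mul _ _ ih h

theorem Rat.const_mul {S : MvPowerSeries σ ℕ} (h : Rat S) (n : ℕ) : Rat ((n : MvPowerSeries σ ℕ) * S) := by
  refine Rat.mul _ _ ?_ h
  rw [← map_natCast (MvPowerSeries.C (σ := σ) (R := ℕ))]
  exact Rat.C _

end rational

theorem const_tau (c : ℕ) : constantCoeff (monomial tau c : MvPowerSeries (Fin 2) ℕ) = 0 := by
  classical
  rw [← coeff_zero_eq_constantCoeff_apply, coeff_monomial, if_neg]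
  intro h
  have := congrArg (fun f => f 0) h
  simp [tau] at this

theorem monomial_mul_C (c : ℕ) (S : MvPowerSeries (Fin 2) ℕ) :
    monomial tau 1 * (C c * S) = monomial tau c * S := by
  rw [← mul_assoc]
  congr 1
  show monomial tau 1 * monomial 0 c = _
  rw [monomial_mul_monomial, add_zero, one_mul]

theorem ser_vv_rat : ∀ i : Fin 7, Rat (ser fun n => vv n i) := by
  refine system 7 (fun i j => monomial tau (NN i j)) (fun i => C (vv 0 i)) _ ?_ ?_ ?_ ?_
  · intro i j; exact Rat.monomial _ _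
  · intro i j; exact const_tau _
  · intro i; exact Rat.C _
  · intro i
    show ser (fun n => vv n i) = C (vv 0 i) + _
    rw [ser_step]
    congr 1
    have : (fun n => vv (n + 1) i) = fun n => ∑ j, NN i j * vv n j := rfl
    rw [this, ser_sum Finset.univ (fun j => NN i j) (fun j n => vv n j), Finset.mul_sum]
    exact Finset.sum_congr rfl fun j _ => monomial_mul_C _ _

theorem ser_smul (c : ℕ) (u : ℕ → ℕ) : ser (fun n => c * u n) = C c * ser u := by
  have := ser_sum {()} (fun _ => c) (fun _ => u)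
  simpa using this

/-- `∑ 10^n t^n` -/
noncomputable def G : MvPowerSeries (Fin 2) ℕ := ser fun n => 10 ^ n

theorem t_eq : (monomial tau 1 : MvPowerSeries (Fin 2) ℕ) = X 0 ^ 2 * X 1 ^ 3 := by
  rw [X_pow_eq, X_pow_eq, monomial_mul_monomial, one_mul]; rfl

theorem G_eq : G = 1 + (10 * (X 0 ^ 2 * X 1 ^ 3)) * G := by
  have h1 : G = C 1 + monomial tau 1 * ser (fun n => 10 ^ (n + 1)) := ser_step _
  have h2 : ser (fun n => 10 ^ (n + 1)) = C 10 * G := by
    rw [G, ← ser_smul]
    congr 1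
    ext n
    exact pow_succ' _ _
  have h3 : (C 10 : MvPowerSeries (Fin 2) ℕ) = 10 := map_ofNat _ 10
  nth_rw 1 [h1]
  rw [h2, map_one, t_eq, h3]
  ring

/-- `a + b` -/
noncomputable def P : MvPowerSeries (Fin 2) ℕ := X 0 + X 1

/-- the part of `(a + b)^5` without `a² b³` -/
noncomputable def V : MvPowerSeries (Fin 2) ℕ :=
  X 0 ^ 5 + 5 * (X 0 ^ 4 * X 1) + 10 * (X 0 ^ 3 * X 1 ^ 2) + 5 * (X 0 * X 1 ^ 4) + X 1 ^ 5

theorem P5 : P ^ 5 = 10 * (X 0 ^ 2 * X 1 ^ 3) + V := by
  rw [P, V]; ring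

theorem const_P : constantCoeff P = 0 := by
  rw [P, map_add, constantCoeff_X, constantCoeff_X, add_zero]

theorem rat_P : Rat P := Rat.add _ _ (Rat.X _) (Rat.X _)

theorem rat_V : Rat V := by
  have h5 : ∀ S : MvPowerSeries (Fin 2) ℕ, Rat S → Rat (5 * S) := fun S h => by
    have := Rat.const_mul h 5
    simpa using this
  have h10 : ∀ S : MvPowerSeries (Fin 2) ℕ, Rat S → Rat (10 * S) := fun S h => by
    have := Rat.const_mul h 10
    simpa using this
  exact Rat.add _ _ (Rat.add _ _ (Rat.add _ _ (Rat.add _ _ ((Rat.X _).pow _)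
    (h5 _ (Rat.mul _ _ ((Rat.X _).pow _) (Rat.X _))))
    (h10 _ (Rat.mul _ _ ((Rat.X _).pow _) ((Rat.X _).pow _))))
    (h5 _ (Rat.mul _ _ (Rat.X _) ((Rat.X _).pow _)))) ((Rat.X _).pow _)

/-- number of words -/
noncomputable def U : MvPowerSeries (Fin 2) ℕ := chi (Set.univ : Set (List (Fin 2)))

theorem U_eq : ∃ Z : MvPowerSeries (Fin 2) ℕ, Rat Z ∧
    U = G + (G * (P + P ^ 2 + P ^ 3 + P ^ 4) + G * V * Z * (1 + P + P ^ 2 + P ^ 3 + P ^ 4)) := by
  have h0 : constantCoeff (P ^ 5) = 0 := by rw [map_pow, const_P]; simp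
  obtain ⟨Z, hZ⟩ := exists_star (P ^ 5) h0
  have hZr : Rat Z := Rat.star _ _ h0 hZ (rat_P.pow _)
  have hZe := star_eq hZ
  refine ⟨Z, hZr, ?_⟩
  have h1 : Z = G * (1 + V * Z) := by
    refine uniq (s := 10 * (X 0 ^ 2 * X 1 ^ 3)) (c := 1 + V * Z) ?_ ?_ ?_
    · rw [map_mul, map_mul, map_pow, map_pow, constantCoeff_X]; simp
    · nth_rw 1 [hZe]
      rw [P5]; ring
    · nth_rw 1 [G_eq]
      ring
  have h2 : U = Z * (1 + P + P ^ 2 + P ^ 3 + P ^ 4) := by
    refine uniq (s := P) (c := 1) const_P chi_univ_eq ?_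
    have h3 : Z * (1 + P + P ^ 2 + P ^ 3 + P ^ 4) = Z + Z * (P + P ^ 2 + P ^ 3 + P ^ 4) := by ring
    rw [h3]
    nth_rw 1 [hZe]
    ring
  rw [h2]
  nth_rw 1 [h1]
  ring

/-- the squares -/
def dd (n : ℕ) : ℕ := ((xy n).1).natAbs ^ 2

theorem vv_dd (n : ℕ) : vv n 0 + dd n = 10 ^ n := by
  have h := vv_eq n 0
  simp only [tgt] at h
  simp at h
  have h2 : ((dd n : ℕ) : ℤ) = (xy n).1 ^ 2 := by
    simp [dd]
  zify
  rw [h, h2]; ring

theorem G_split : G = ser (fun n => vv n 0) + ser dd := by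
  rw [← ser_add]
  unfold G
  congr 1
  ext n
  exact (vv_dd n).symm

theorem U_split : ∃ S : MvPowerSeries (Fin 2) ℕ, Rat S ∧ U = ser dd + S := by
  obtain ⟨Z, hZ, hU⟩ := U_eq
  have hG : Rat G := by
    have := ser_vv_rat 6
    have h2 : (fun n => vv n 6) = fun n => 10 ^ n := by
      ext n
      have h := vv_eq n 6
      simp only [tgt] at h
      simp at h
      exact_mod_cast h
    rw [h2] at this
    exact this
  refine ⟨ser (fun n => vv n 0) + (G * (P + P ^ 2 + P ^ 3 + P ^ 4) +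
    G * V * Z * (1 + P + P ^ 2 + P ^ 3 + P ^ 4)), ?_, ?_⟩
  · have hQ : Rat (P + P ^ 2 + P ^ 3 + P ^ 4) :=
      Rat.add _ _ (Rat.add _ _ (Rat.add _ _ rat_P (rat_P.pow _)) (rat_P.pow _)) (rat_P.pow _)
    have hQ' : Rat (1 + P + P ^ 2 + P ^ 3 + P ^ 4) :=
      Rat.add _ _ (Rat.add _ _ (Rat.add _ _ (Rat.add _ _ Rat.one rat_P) (rat_P.pow _))
        (rat_P.pow _)) (rat_P.pow _)
    exact Rat.add _ _ (ser_vv_rat 0) (Rat.add _ _ (Rat.mul _ _ hG hQ)
      (Rat.mul _ _ (Rat.mul _ _ (Rat.mul _ _ hG rat_V) hZ) hQ'))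
  · rw [hU]
    nth_rw 1 [G_split]
    ring

/-- there is a language with series `ser dd` -/
theorem exists_lang : ∃ K : Set (List (Fin 2)), chi K = ser dd ∧
    chi K + chi Kᶜ = U := by
  obtain ⟨S, -, hS⟩ := U_split
  have hle : ∀ n : ℕ, dd n ≤ {w : List (Fin 2) | parikh w = n • tau}.ncard := by
    intro n
    have h1 : coeff (n • tau) U = {w : List (Fin 2) | parikh w = n • tau}.ncard := by
      rw [U, chi_apply]; simp
    rw [← h1, hS, map_add, coeff_ser]
    exact Nat.le_add_right _ _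
  have hex : ∀ n : ℕ, ∃ t ⊆ {w : List (Fin 2) | parikh w = n • tau}, t.ncard = dd n := fun n =>
    Set.exists_subset_card_eq (hle n)
  choose t ht htc using hex
  have hinj : ∀ m n : ℕ, m • tau = n • tau → m = n := by
    intro m n h
    have := congrArg (fun f => f 0) h
    simp only [Finsupp.smul_apply, tau_zero, smul_eq_mul] at this
    omega
  refine ⟨{w | ∃ n, w ∈ t n}, ?_, ?_⟩
  · ext m
    rw [chi_apply]
    by_cases hm : ∃ n : ℕ, m = n • tau
    · obtain ⟨n, rfl⟩ := hm
      rw [coeff_ser, ← htc n]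
      congr 1
      ext w
      constructor
      · rintro ⟨⟨k, hk⟩, hw⟩
        have h1 : parikh w = k • tau := ht k hk
        have h2 := hinj _ _ (h1.symm.trans hw)
        rw [← h2]; exact hk
      · intro hw
        exact ⟨⟨n, hw⟩, ht n hw⟩
    · push Not at hm
      rw [coeff_ser_ne _ m hm]
      have : {w : List (Fin 2) | w ∈ {w | ∃ n, w ∈ t n} ∧ parikh w = m} = ∅ := by
        ext w
        simp only [Set.mem_ofPred_eq, Set.mem_empty_iff_false, iff_false, not_and]
        rintro ⟨k, hk⟩ hw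
        exact hm k (hw.symm.trans (ht k hk))
      rw [this, Set.ncard_empty]
  · ext m
    rw [map_add, U, chi_apply, chi_apply, chi_apply, ← Set.ncard_union_eq ?_
      ((finite_parikh m).subset fun w h => h.2) ((finite_parikh m).subset fun w h => h.2)]
    · congr 1
      ext w
      simp only [Set.mem_ofPred_eq, Set.mem_union, Set.mem_compl_iff, Set.mem_univ, true_and]
      tauto
    · rw [Set.disjoint_left]
      rintro w ⟨h1, -⟩ ⟨h2, -⟩
      exact h2 h1


/-! ### Evaluation at a point -/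

section eval

variable {𝕜 : Type} [RCLike 𝕜]

/-- terms of the evaluation at `(z, z)` -/
noncomputable def trm (f : MvPowerSeries (Fin 2) ℕ) (z : 𝕜) (m : Fin 2 →₀ ℕ) : 𝕜 :=
  ((coeff m f : ℕ) : 𝕜) * z ^ m.degree

/-- absolute convergence at radius `r` -/
def Conv (f : MvPowerSeries (Fin 2) ℕ) (r : ℝ) : Prop := Summable (trm f r)

/-- the value -/
noncomputable def ev (f : MvPowerSeries (Fin 2) ℕ) (z : 𝕜) : 𝕜 := ∑' m, trm f z m

theorem norm_trm (f : MvPowerSeries (Fin 2) ℕ) (z : 𝕜) (m : Fin 2 →₀ ℕ) :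
    ‖trm f z m‖ = trm f ‖z‖ m := by
  simp [trm]

theorem Conv.norm {f : MvPowerSeries (Fin 2) ℕ} {z : 𝕜} {r : ℝ} (h : Conv f r) (hz : ‖z‖ = r) :
    Summable fun m => ‖trm f z m‖ := by
  simp only [norm_trm, hz]; exact h

theorem trm_nonneg (f : MvPowerSeries (Fin 2) ℕ) {r : ℝ} (hr : 0 ≤ r) (m : Fin 2 →₀ ℕ) :
    0 ≤ trm f r m := mul_nonneg (Nat.cast_nonneg _) (pow_nonneg hr _)

theorem trm_le (f : MvPowerSeries (Fin 2) ℕ) {r ρ : ℝ} (hr : 0 ≤ r) (h : r ≤ ρ)
    (m : Fin 2 →₀ ℕ) : trm f r m ≤ trm f ρ m := by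
  rw [trm, trm]
  exact mul_le_mul_of_nonneg_left (pow_le_pow_left₀ hr h _) (Nat.cast_nonneg _)

theorem trm_mul (f g : MvPowerSeries (Fin 2) ℕ) (z : 𝕜) (m : Fin 2 →₀ ℕ) :
    trm (f * g) z m = ∑ kl ∈ Finset.HasAntidiagonal.antidiagonal m,
      trm f z kl.1 * trm g z kl.2 := by
  classical
  rw [trm, coeff_mul, Nat.cast_sum, Finset.sum_mul]
  refine Finset.sum_congr rfl fun kl h => ?_
  have : m.degree = kl.1.degree + kl.2.degree := by
    rw [← map_add, (Finset.HasAntidiagonal.mem_antidiagonal.1 h)]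
  rw [this, pow_add, Nat.cast_mul, trm, trm]; ring

theorem norm_ev_le {f : MvPowerSeries (Fin 2) ℕ} {z : 𝕜} {r : ℝ} (hz : ‖z‖ = r)
    (hf : Conv f r) : ‖ev f z‖ ≤ ev f r := by
  have h1 : ‖∑' m, trm f z m‖ ≤ ∑' m, ‖trm f z m‖ := norm_tsum_le_tsum_norm (hf.norm hz)
  have h2 : (fun m => ‖trm f z m‖) = trm f r := by
    ext m
    rw [norm_trm, hz]
  rw [h2] at h1
  exact h1

theorem ev_le {f : MvPowerSeries (Fin 2) ℕ} {r ρ : ℝ} (hr : 0 ≤ r) (h : r ≤ ρ)
    (hr1 : Conv f r) (hρ : Conv f ρ) : ev f r ≤ ev f ρ :=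
  Summable.tsum_le_tsum (fun m => trm_le f hr h m) hr1 hρ

theorem ev_mul {f g : MvPowerSeries (Fin 2) ℕ} {z : 𝕜} {r : ℝ} (hz : ‖z‖ = r) (hf : Conv f r)
    (hg : Conv g r) : ev (f * g) z = ev f z * ev g z := by
  have hf' := hf.norm hz
  have hg' := hg.norm hz
  rw [ev, ev, ev, (hf'.of_norm).tsum_mul_tsum_eq_tsum_sum_antidiagonal hg'.of_norm
    (summable_mul_of_summable_norm hf' hg')]
  exact tsum_congr fun m => trm_mul f g z m

theorem ev_add {f g : MvPowerSeries (Fin 2) ℕ} {z : 𝕜} {r : ℝ} (hz : ‖z‖ = r) (hf : Conv f r)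
    (hg : Conv g r) : ev (f + g) z = ev f z + ev g z := by
  rw [ev, ev, ev, ← (hf.norm hz).of_norm.tsum_add (hg.norm hz).of_norm]
  refine tsum_congr fun m => ?_
  rw [trm, trm, trm, map_add, Nat.cast_add, add_mul]

theorem ev_one (z : 𝕜) : ev 1 z = 1 := by
  classical
  rw [ev, tsum_eq_single 0]
  · simp [trm]
  · intro m hm
    rw [trm, coeff_one, if_neg hm]
    simp

theorem conv_one (r : ℝ) : Conv 1 r := by
  classical
  refine summable_of_ne_finset_zero (s := {0}) fun m hm => ?_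
  rw [trm, coeff_one, if_neg (by simpa using hm)]
  simp

theorem Conv.mono {f g : MvPowerSeries (Fin 2) ℕ} {r : ℝ} (hr : 0 ≤ r) (h : Conv g r)
    (hfg : ∀ m, coeff m f ≤ coeff m g) : Conv f r := by
  refine Summable.of_nonneg_of_le (fun m => trm_nonneg f hr m) (fun m => ?_) h
  rw [trm, trm]
  exact mul_le_mul_of_nonneg_right (Nat.cast_le.2 (hfg m)) (pow_nonneg hr _)

theorem Conv.of_shift {f g : MvPowerSeries (Fin 2) ℕ} {r : ℝ} (hr : 0 < r) (h : Conv g r)
    (m₀ : Fin 2 →₀ ℕ) (hfg : ∀ m, coeff m f ≤ coeff (m₀ + m) g) : Conv f r := by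
  have h1 : Summable fun m => trm g r (m₀ + m) := h.comp_injective (add_right_injective m₀)
  have h2 := h1.mul_left ((r ^ m₀.degree)⁻¹)
  refine Summable.of_nonneg_of_le (fun m => trm_nonneg f hr.le m) (fun m => ?_) h2
  rw [trm, trm, map_add, pow_add]
  have h3 : (r ^ m₀.degree)⁻¹ * (((coeff (m₀ + m) g : ℕ) : ℝ) * (r ^ m₀.degree * r ^ m.degree)) =
      ((coeff (m₀ + m) g : ℕ) : ℝ) * r ^ m.degree := by
    field_simp
  rw [h3]
  exact mul_le_mul_of_nonneg_right (Nat.cast_le.2 (hfg m)) (pow_nonneg hr.le _)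

theorem coeff_mul_ge (f g : MvPowerSeries (Fin 2) ℕ) (a b : Fin 2 →₀ ℕ) :
    coeff a f * coeff b g ≤ coeff (a + b) (f * g) := by
  classical
  rw [coeff_mul]
  exact Finset.single_le_sum (f := fun p : (Fin 2 →₀ ℕ) × (Fin 2 →₀ ℕ) =>
    coeff p.1 f * coeff p.2 g) (fun _ _ => Nat.zero_le _)
    (Finset.HasAntidiagonal.mem_antidiagonal.2 rfl : (a, b) ∈ _)

theorem re_lt_one {z : ℂ} (h : ‖z‖ = 1) (h1 : z ≠ 1) : z.re < 1 := by
  have h2 : z.re ≤ 1 := h ▸ Complex.re_le_norm z
  refine lt_of_le_of_ne h2 fun h3 => h1 ?_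
  have h4 : z.re ^ 2 + z.im ^ 2 = 1 := by
    have := Complex.sq_norm z
    rw [h, Complex.normSq_apply] at this
    nlinarith
  have h5 : z.im = 0 := by
    rw [h3] at h4
    nlinarith
  exact Complex.ext h3 h5

/-- The key bound: if the nonnegative series converges inside the radius `ρ`, then on the
twisted ray the values stay bounded. -/
theorem bounded {ρ : ℝ} (hρ : 0 < ρ) {w : ℂ} (hw : ‖w‖ = 1) (hroot : ∀ n, 1 ≤ n → w ^ n ≠ 1)
    {f : MvPowerSeries (Fin 2) ℕ} (hf : Rat f) :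
    (∀ r, 0 < r → r < ρ → Conv f r) → ∃ B : ℝ, ∀ r : ℝ, ρ / 2 ≤ r → r < ρ →
      ‖ev f ((r : ℂ) * w)‖ ≤ B := by
  have hnorm : ∀ r : ℝ, 0 < r → ‖(r : ℂ) * w‖ = r := by
    intro r hr
    rw [norm_mul, hw, mul_one, Complex.norm_real, Real.norm_of_nonneg hr.le]
  induction hf with
  | fin S h =>
    intro _
    have hsum : Conv S ρ := by
      refine summable_of_ne_finset_zero (s := h.toFinset) fun m hm => ?_
      rw [Set.Finite.mem_toFinset] at hm
      have : coeff m S = 0 := by simpa using hm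
      rw [trm, this]; simp
    refine ⟨ev S ρ, fun r hr1 hr2 => ?_⟩
    have hr0 : 0 < r := by linarith
    have hc : Conv S r := by
      exact Summable.of_nonneg_of_le (fun m => trm_nonneg S hr0.le m)
        (fun m => trm_le S hr0.le hr2.le m) hsum
    exact (norm_ev_le (hnorm r hr0) hc).trans (ev_le hr0.le hr2.le hc hsum)
  | add S T hS hT ihS ihT =>
    intro hc
    have hcS : ∀ r, 0 < r → r < ρ → Conv S r := fun r h0 h1 =>
      (hc r h0 h1).mono h0.le fun m => by rw [map_add]; exact Nat.le_add_right _ _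
    have hcT : ∀ r, 0 < r → r < ρ → Conv T r := fun r h0 h1 =>
      (hc r h0 h1).mono h0.le fun m => by rw [map_add]; exact Nat.le_add_left _ _
    obtain ⟨B1, h1⟩ := ihS hcS
    obtain ⟨B2, h2⟩ := ihT hcT
    refine ⟨B1 + B2, fun r hr1 hr2 => ?_⟩
    have hr0 : 0 < r := by linarith
    rw [ev_add (hnorm r hr0) (hcS r hr0 hr2) (hcT r hr0 hr2)]
    exact (norm_add_le _ _).trans (add_le_add (h1 r hr1 hr2) (h2 r hr1 hr2))
  | mul S T hS hT ihS ihT =>
    intro hc
    by_cases hS0 : S = 0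
    · refine ⟨0, fun r _ _ => ?_⟩
      rw [hS0, zero_mul]
      simp [ev, trm]
    by_cases hT0 : T = 0
    · refine ⟨0, fun r _ _ => ?_⟩
      rw [hT0, mul_zero]
      simp [ev, trm]
    obtain ⟨a, ha⟩ : ∃ a, coeff a S ≠ 0 := by
      by_contra h
      push Not at h
      exact hS0 (MvPowerSeries.ext fun m => by rw [h m]; simp)
    obtain ⟨b, hb⟩ : ∃ b, coeff b T ≠ 0 := by
      by_contra h
      push Not at h
      exact hT0 (MvPowerSeries.ext fun m => by rw [h m]; simp)
    have hcS : ∀ r, 0 < r → r < ρ → Conv S r := fun r h0 h1 =>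
      (hc r h0 h1).of_shift h0 b fun m => by
        refine le_trans ?_ ((coeff_mul_ge S T m b).trans_eq (by rw [add_comm]))
        exact Nat.le_mul_of_pos_right _ (Nat.pos_of_ne_zero hb)
    have hcT : ∀ r, 0 < r → r < ρ → Conv T r := fun r h0 h1 =>
      (hc r h0 h1).of_shift h0 a fun m => by
        refine le_trans ?_ (coeff_mul_ge S T a m)
        exact Nat.le_mul_of_pos_left _ (Nat.pos_of_ne_zero ha)
    obtain ⟨B1, h1⟩ := ihS hcS
    obtain ⟨B2, h2⟩ := ihT hcT
    refine ⟨B1 * B2, fun r hr1 hr2 => ?_⟩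
    have hr0 : 0 < r := by linarith
    rw [ev_mul (hnorm r hr0) (hcS r hr0 hr2) (hcT r hr0 hr2), norm_mul]
    exact mul_le_mul (h1 r hr1 hr2) (h2 r hr1 hr2) (norm_nonneg _)
      ((norm_nonneg _).trans (h1 r hr1 hr2))
  | star S T h0 hT hS ihS =>
    intro hc
    have hTe := star_eq hT
    have hT1 : 1 ≤ coeff 0 T := by
      rw [hTe, map_add]
      simp
    have hST : ∀ m, coeff m S ≤ coeff m T := by
      intro m
      rw [hTe, map_add]
      refine le_trans ?_ (Nat.le_add_left _ _)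
      refine le_trans ?_ ((coeff_mul_ge S T m 0).trans_eq (by rw [add_zero]))
      exact Nat.le_mul_of_pos_right _ hT1
    have hcS : ∀ r, 0 < r → r < ρ → Conv S r := fun r h0 h1 => (hc r h0 h1).mono h0.le hST
    by_cases hS0 : S = 0
    · refine ⟨1, fun r _ _ => ?_⟩
      rw [hS0, zero_mul, add_zero] at hTe
      rw [hTe, ev_one, norm_one]
    obtain ⟨a, ha⟩ : ∃ a, coeff a S ≠ 0 := by
      by_contra h
      push Not at h
      exact hS0 (MvPowerSeries.ext fun m => by rw [h m]; simp)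
    have ha0 : 1 ≤ a.degree := by
      rw [Nat.one_le_iff_ne_zero]
      intro h
      have : a = 0 := (Finsupp.degree_eq_zero_iff a).1 h
      rw [this] at ha
      exact ha h0
    have hre : (w ^ a.degree).re < 1 := re_lt_one (by rw [norm_pow, hw, one_pow]) (hroot _ ha0)
    set c : ℝ := trm S (ρ / 2) a * (1 - (w ^ a.degree).re) with hcdef
    have hc0 : 0 < c := by
      refine mul_pos (mul_pos ?_ (pow_pos (by linarith) _)) (by linarith)
      exact_mod_cast Nat.pos_of_ne_zero ha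
    refine ⟨1 / c, fun r hr1 hr2 => ?_⟩
    have hr0 : 0 < r := by linarith
    have hcm : Conv (S * T) r := (hc r hr0 hr2).mono hr0.le fun m => by
      nth_rw 2 [hTe]
      rw [map_add]; exact Nat.le_add_left _ _
    -- the real value
    have hrn : ‖r‖ = r := Real.norm_of_nonneg hr0.le
    have hreal : ev T r = 1 + ev S r * ev T r := by
      nth_rw 1 [hTe]
      rw [ev_add hrn (conv_one r) hcm, ev_mul hrn (hcS r hr0 hr2) (hc r hr0 hr2), ev_one]
    have hSnn : 0 ≤ ev S r := tsum_nonneg fun m => trm_nonneg S hr0.le m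
    have hTnn : 0 ≤ ev T r := tsum_nonneg fun m => trm_nonneg T hr0.le m
    have hSlt : ev S r < 1 := by
      by_contra h
      push Not at h
      nlinarith
    have hcomp : ev T ((r : ℂ) * w) = 1 + ev S ((r : ℂ) * w) * ev T ((r : ℂ) * w) := by
      nth_rw 1 [hTe]
      rw [ev_add (hnorm r hr0) (conv_one r) hcm, ev_mul (hnorm r hr0) (hcS r hr0 hr2)
        (hc r hr0 hr2), ev_one]
    have hone : ev T ((r : ℂ) * w) * (1 - ev S ((r : ℂ) * w)) = 1 := by
      linear_combination hcomp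
    -- lower bound
    have hlow : c ≤ ‖1 - ev S ((r : ℂ) * w)‖ := by
      refine le_trans ?_ (Complex.re_le_norm _)
      have hs1 : Summable (trm S ((r : ℂ) * w)) := ((hcS r hr0 hr2).norm (hnorm r hr0)).of_norm
      have hs2 : Summable (trm S r) := hcS r hr0 hr2
      have hre1 : (ev S ((r : ℂ) * w)).re = ∑' m, (trm S ((r : ℂ) * w) m).re :=
        Complex.re_tsum hs1
      have hs3 : Summable fun m => (trm S ((r : ℂ) * w) m).re :=
        (Complex.hasSum_re hs1.hasSum).summable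
      have hterm : ∀ m, (trm S ((r : ℂ) * w) m).re = trm S r m * (w ^ m.degree).re := by
        intro m
        rw [trm, trm, mul_pow]
        have : ((coeff m S : ℕ) : ℂ) * ((r : ℂ) ^ m.degree * w ^ m.degree) =
            (((((coeff m S : ℕ) : ℝ) * r ^ m.degree : ℝ)) : ℂ) * w ^ m.degree := by
          push_cast; ring
        rw [this, Complex.re_ofReal_mul]
      have hdiff : ∑' m, (trm S r m - (trm S ((r : ℂ) * w) m).re) =
          ev S r - (ev S ((r : ℂ) * w)).re := by
        rw [hre1, hs2.tsum_sub hs3]; rfl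
      have hge : c ≤ ∑' m, (trm S r m - (trm S ((r : ℂ) * w) m).re) := by
        refine le_trans ?_ ((hs2.sub hs3).le_tsum a fun m _ => ?_)
        · rw [hterm a, hcdef]
          have h1 : trm S (ρ / 2) a ≤ trm S r a := trm_le S (by linarith) hr1 a
          nlinarith
        · rw [hterm m]
          have h1 : (w ^ m.degree).re ≤ 1 := by
            refine (Complex.re_le_norm _).trans ?_
            rw [norm_pow, hw, one_pow]
          have h2 := trm_nonneg S hr0.le m
          nlinarith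
      rw [Complex.sub_re, Complex.one_re]
      linarith
    have hn := congrArg norm hone
    rw [norm_mul, norm_one] at hn
    rw [le_div_iff₀ hc0]
    calc ‖ev T ((r : ℂ) * w)‖ * c ≤ ‖ev T ((r : ℂ) * w)‖ * ‖1 - ev S ((r : ℂ) * w)‖ :=
          mul_le_mul_of_nonneg_left hlow (norm_nonneg _)
      _ = 1 := hn

end eval


/-! ### The series of squares is not rational -/

theorem xy_complex (n : ℕ) : (1 + 2 * Complex.I) ^ n = ((xy n).1 : ℂ) + (xy n).2 * Complex.I ∧
    (1 - 2 * Complex.I) ^ n = ((xy n).1 : ℂ) - (xy n).2 * Complex.I := by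
  induction n with
  | zero => simp [xy]
  | succ n ih =>
    obtain ⟨h1, h2⟩ := ih
    have hI : Complex.I * Complex.I = -1 := Complex.I_mul_I
    constructor
    · rw [pow_succ, h1, xy]; push_cast
      linear_combination (2 * ((xy n).2 : ℂ)) * hI
    · rw [pow_succ, h2, xy]; push_cast
      linear_combination (2 * ((xy n).2 : ℂ)) * hI

/-- the unit number `u` -/
noncomputable def uu : ℂ := (-3 - 4 * Complex.I) / 5

theorem dd_complex (n : ℕ) (s : ℂ) : ((dd n : ℕ) : ℂ) * (s / 5 * uu) ^ n =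
    1 / 4 * (s ^ n + 2 * (s * uu) ^ n + (s * uu ^ 2) ^ n) := by
  obtain ⟨h1, h2⟩ := xy_complex n
  have hI : Complex.I * Complex.I = -1 := Complex.I_mul_I
  have h3 : ((dd n : ℕ) : ℂ) = ((xy n).1 : ℂ) ^ 2 := by
    have : ((dd n : ℕ) : ℤ) = (xy n).1 ^ 2 := by simp [dd]
    exact_mod_cast this
  have h4 : ((xy n).1 : ℂ) = 1 / 2 * ((1 + 2 * Complex.I) ^ n + (1 - 2 * Complex.I) ^ n) := by
    rw [h1, h2]; ring
  have h5 : ((xy n).1 : ℂ) ^ 2 = 1 / 4 * ((-3 + 4 * Complex.I) ^ n + 2 * 5 ^ n +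
      (-3 - 4 * Complex.I) ^ n) := by
    have e1 : (1 + 2 * Complex.I) * (1 + 2 * Complex.I) = -3 + 4 * Complex.I := by
      linear_combination 4 * hI
    have e2 : (1 - 2 * Complex.I) * (1 - 2 * Complex.I) = -3 - 4 * Complex.I := by
      linear_combination 4 * hI
    have e3 : (1 + 2 * Complex.I) * (1 - 2 * Complex.I) = 5 := by
      linear_combination -4 * hI
    rw [h4, ← e1, ← e2, mul_pow (1 + 2 * Complex.I), mul_pow (1 - 2 * Complex.I), ← e3,
      mul_pow (1 + 2 * Complex.I)]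
    generalize (1 + 2 * Complex.I) ^ n = A
    generalize (1 - 2 * Complex.I) ^ n = A'
    ring
  have h6 : (-3 + 4 * Complex.I) * (s / 5 * uu) = s := by
    rw [uu]; linear_combination (-16 / 25 * s) * hI
  have h7 : (5 : ℂ) * (s / 5 * uu) = s * uu := by ring
  have h8 : (-3 - 4 * Complex.I) * (s / 5 * uu) = s * uu ^ 2 := by
    rw [uu]; ring
  rw [h3, h5]
  calc _ = 1 / 4 * (((-3 + 4 * Complex.I) * (s / 5 * uu)) ^ n + 2 * ((5 : ℂ) * (s / 5 * uu)) ^ n +
      ((-3 - 4 * Complex.I) * (s / 5 * uu)) ^ n) := by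
        rw [mul_pow (-3 + 4 * Complex.I), mul_pow (5 : ℂ), mul_pow (-3 - 4 * Complex.I)]
        ring
    _ = _ := by rw [h6, h7, h8]

theorem norm_uu : ‖uu‖ = 1 := by
  have h : ‖uu‖ ^ 2 = 1 := by
    rw [Complex.sq_norm, uu, Complex.normSq_apply]
    norm_num
  have h0 := norm_nonneg uu
  nlinarith [sq_nonneg (‖uu‖ - 1), sq_nonneg (‖uu‖ + 1)]

theorem uu_re : uu.re = -3 / 5 := by rw [uu]; norm_num

theorem uu2_re : (uu ^ 2).re = -7 / 25 := by rw [uu, sq]; norm_num

theorem uu_pow (n : ℕ) : ∃ a b : ℤ, (-3 - 4 * Complex.I) ^ (n + 1) = (a : ℂ) + b * Complex.I ∧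
    (5 : ℤ) ∣ a - 2 * b ∧ ¬ (5 : ℤ) ∣ b := by
  have hI : Complex.I * Complex.I = -1 := Complex.I_mul_I
  induction n with
  | zero => exact ⟨-3, -4, by push_cast; ring, by norm_num, by norm_num⟩
  | succ n ih =>
    obtain ⟨a, b, h1, h2, h3⟩ := ih
    refine ⟨-3 * a + 4 * b, -4 * a - 3 * b, ?_, ?_, ?_⟩
    · rw [pow_succ, h1]; push_cast
      linear_combination (-4 * (b : ℂ)) * hI
    · omega
    · omega

theorem uu_root (n : ℕ) (hn : 1 ≤ n) : uu ^ n ≠ 1 := by
  intro h
  obtain ⟨k, rfl⟩ : ∃ k, n = k + 1 := ⟨n - 1, by omega⟩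
  rw [uu, div_pow, div_eq_one_iff_eq (pow_ne_zero _ (by norm_num))] at h
  obtain ⟨a, b, h1, -, h3⟩ := uu_pow k
  rw [h1] at h
  have h4 := congrArg Complex.im h
  have h5 : ((5 : ℂ) ^ (k + 1)).im = 0 := by
    have : ((5 : ℂ) ^ (k + 1)) = (((5 : ℝ) ^ (k + 1) : ℝ) : ℂ) := by push_cast; rfl
    rw [this, Complex.ofReal_im]
  rw [h5] at h4
  simp at h4
  apply h3
  rw [h4]
  exact dvd_zero _

theorem tau_degree : tau.degree = 5 := by
  rw [tau, map_add]; simp

theorem ser_trm (u : ℕ → ℕ) {𝕜 : Type} [RCLike 𝕜] (z : 𝕜) (n : ℕ) :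
    trm (ser u) z (n • tau) = (u n : 𝕜) * (z ^ 5) ^ n := by
  rw [trm, coeff_ser, map_nsmul, tau_degree, smul_eq_mul, mul_comm n 5, pow_mul]

theorem ser_trm_ne (u : ℕ → ℕ) {𝕜 : Type} [RCLike 𝕜] (z : 𝕜) (m : Fin 2 →₀ ℕ)
    (hm : m ∉ Set.range fun n : ℕ => n • tau) : trm (ser u) z m = 0 := by
  rw [trm, coeff_ser_ne u m fun n hn => hm ⟨n, hn.symm⟩]
  simp

theorem tau_inj : Function.Injective fun n : ℕ => n • tau := by
  intro m n h
  have := congrArg (fun f => f 0) h
  simp only [Finsupp.smul_apply, tau_zero, smul_eq_mul] at this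
  omega

theorem ser_conv_iff (u : ℕ → ℕ) (r : ℝ) :
    Conv (ser u) r ↔ Summable fun n => (u n : ℝ) * (r ^ 5) ^ n := by
  rw [Conv, ← tau_inj.summable_iff fun m hm => ser_trm_ne u r m hm]
  have : (trm (ser u) r ∘ fun n : ℕ => n • tau) = fun n => (u n : ℝ) * (r ^ 5) ^ n := by
    ext n
    exact ser_trm u r n
  rw [this]

theorem ser_ev (u : ℕ → ℕ) (z : ℂ) : ev (ser u) z = ∑' n, (u n : ℂ) * (z ^ 5) ^ n := by
  have h : Function.support (trm (ser u) z) ⊆ Set.range fun n : ℕ => n • tau := by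
    intro m hm
    by_contra h
    exact hm (ser_trm_ne u z m h)
  rw [ev, ← tau_inj.tsum_eq h]
  exact tsum_congr fun n => ser_trm u z n

theorem not_rat : ¬ Rat (ser dd) := by
  intro hrat
  obtain ⟨w, hw⟩ := IsAlgClosed.exists_pow_nat_eq uu (n := 5) (by norm_num)
  have hwn : ‖w‖ = 1 := by
    have h1 : ‖w‖ ^ 5 = 1 := by rw [← norm_pow, hw, norm_uu]
    exact (pow_eq_one_iff_of_nonneg (norm_nonneg _) (by norm_num)).1 h1
  have hwr : ∀ n, 1 ≤ n → w ^ n ≠ 1 := by
    intro n hn h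
    apply uu_root n hn
    rw [← hw, ← pow_mul, mul_comm, pow_mul, h, one_pow]
  obtain ⟨ρ, hρ0, hρ⟩ : ∃ ρ : ℝ, 0 < ρ ∧ ρ ^ 5 = 1 / 5 := by
    refine ⟨(1 / 5 : ℝ) ^ ((5 : ℕ) : ℝ)⁻¹, Real.rpow_pos_of_pos (by norm_num) _, ?_⟩
    exact Real.rpow_inv_natCast_pow (by norm_num) (by norm_num)
  have hdd : ∀ n, dd n ≤ 10 ^ n := fun n => by rw [← vv_dd n]; exact Nat.le_add_left _ _
  -- better bound
  have hdd5 : ∀ n, (dd n : ℝ) ≤ 5 ^ n := by
    intro n
    have h1 : ∀ n, (xy n).1 ^ 2 + (xy n).2 ^ 2 = 5 ^ n := by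
      intro n
      induction n with
      | zero => simp [xy]
      | succ n ih => rw [pow_succ (5 : ℤ), ← ih, xy]; ring
    have h2 : ((dd n : ℕ) : ℤ) ≤ 5 ^ n := by
      have : ((dd n : ℕ) : ℤ) = (xy n).1 ^ 2 := by simp [dd]
      rw [this, ← h1 n]
      have := sq_nonneg (xy n).2
      linarith
    exact_mod_cast h2
  have hconv : ∀ r, 0 < r → r < ρ → Conv (ser dd) r := by
    intro r h0 h1
    rw [ser_conv_iff]
    have h5 : r ^ 5 < 1 / 5 := hρ ▸ pow_lt_pow_left₀ h1 h0.le (by norm_num)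
    have hp : 0 < r ^ 5 := by positivity
    refine Summable.of_nonneg_of_le (fun n => by positivity) (fun n => ?_)
      (summable_geometric_of_lt_one (r := 5 * r ^ 5) (by positivity) (by linarith))
    rw [mul_pow]
    exact mul_le_mul_of_nonneg_right (hdd5 n) (by positivity)
  obtain ⟨B, hB⟩ := bounded hρ0 hwn hwr hrat hconv
  -- the value
  have hval : ∀ q : ℝ, 1 / 2 ≤ q → q < 1 → ev (ser dd) (((ρ * q : ℝ) : ℂ) * w) =
      1 / 4 * ((1 - ((q ^ 5 : ℝ) : ℂ))⁻¹ + 2 * (1 - ((q ^ 5 : ℝ) : ℂ) * uu)⁻¹ +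
        (1 - ((q ^ 5 : ℝ) : ℂ) * uu ^ 2)⁻¹) := by
    intro q hq1 hq2
    have hq0 : 0 < q := by linarith
    have hs0 : 0 < q ^ 5 := by positivity
    have hs1 : q ^ 5 < 1 := pow_lt_one₀ hq0.le hq2 (by norm_num)
    set s : ℝ := q ^ 5 with hs
    rw [ser_ev]
    have h1 : (((ρ * q : ℝ) : ℂ) * w) ^ 5 = (s : ℂ) / 5 * uu := by
      have h2 : ((ρ : ℂ)) ^ 5 = 1 / 5 := by
        rw [← Complex.ofReal_pow, hρ]; push_cast; rfl
      rw [mul_pow, hw, Complex.ofReal_mul, mul_pow, h2, hs]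
      push_cast; ring
    rw [h1]
    have hn1 : ‖(s : ℂ)‖ < 1 := by
      rw [Complex.norm_real, Real.norm_of_nonneg hs0.le]; exact hs1
    have hn2 : ‖(s : ℂ) * uu‖ < 1 := by rw [norm_mul, norm_uu, mul_one]; exact hn1
    have hn3 : ‖(s : ℂ) * uu ^ 2‖ < 1 := by
      rw [norm_mul, norm_pow, norm_uu, one_pow, mul_one]; exact hn1
    have hsum := ((hasSum_geometric_of_norm_lt_one hn1).add
      ((hasSum_geometric_of_norm_lt_one hn2).mul_left 2)).add
      (hasSum_geometric_of_norm_lt_one hn3) |>.mul_left (1 / 4 : ℂ)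
    rw [← hsum.tsum_eq]
    exact tsum_congr fun n => dd_complex n s
  -- lower bound
  have hlow : ∀ q : ℝ, 1 / 2 ≤ q → q < 1 → (1 - q ^ 5)⁻¹ ≤ 4 * B + 3 := by
    intro q hq1 hq2
    have hq0 : 0 < q := by linarith
    have hs0 : 0 < q ^ 5 := by positivity
    have hs1 : q ^ 5 < 1 := pow_lt_one₀ hq0.le hq2 (by norm_num)
    have h1 := hB (ρ * q) (by nlinarith) (by nlinarith)
    rw [hval q hq1 hq2] at h1
    set s : ℝ := q ^ 5 with hs
    have h2 : ‖(1 - (s : ℂ) * uu)⁻¹‖ ≤ 1 := by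
      rw [norm_inv]
      apply inv_le_one_of_one_le₀
      refine le_trans ?_ (Complex.re_le_norm _)
      rw [Complex.sub_re, Complex.one_re, Complex.re_ofReal_mul, uu_re]
      nlinarith
    have h3 : ‖(1 - (s : ℂ) * uu ^ 2)⁻¹‖ ≤ 1 := by
      rw [norm_inv]
      apply inv_le_one_of_one_le₀
      refine le_trans ?_ (Complex.re_le_norm _)
      rw [Complex.sub_re, Complex.one_re, Complex.re_ofReal_mul, uu2_re]
      nlinarith
    have h4 : (1 - (s : ℂ))⁻¹ = 4 * (1 / 4 * ((1 - (s : ℂ))⁻¹ + 2 * (1 - (s : ℂ) * uu)⁻¹ +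
        (1 - (s : ℂ) * uu ^ 2)⁻¹)) - 2 * (1 - (s : ℂ) * uu)⁻¹ -
        (1 - (s : ℂ) * uu ^ 2)⁻¹ := by ring
    have h5 : ‖(1 - (s : ℂ))⁻¹‖ = (1 - s)⁻¹ := by
      rw [norm_inv]
      congr 1
      have : (1 : ℂ) - s = ((1 - s : ℝ) : ℂ) := by push_cast; rfl
      rw [this, Complex.norm_real, Real.norm_of_nonneg (by linarith)]
    rw [← h5, h4]
    refine (norm_sub_le _ _).trans ?_
    have h6 := norm_sub_le (4 * (1 / 4 * ((1 - (s : ℂ))⁻¹ + 2 * (1 - (s : ℂ) * uu)⁻¹ +
        (1 - (s : ℂ) * uu ^ 2)⁻¹))) (2 * (1 - (s : ℂ) * uu)⁻¹)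
    have h7 : ‖(4 : ℂ) * (1 / 4 * ((1 - (s : ℂ))⁻¹ + 2 * (1 - (s : ℂ) * uu)⁻¹ +
        (1 - (s : ℂ) * uu ^ 2)⁻¹))‖ ≤ 4 * B := by
      rw [norm_mul]
      have : ‖(4 : ℂ)‖ = 4 := by norm_num
      rw [this]
      linarith
    have h8 : ‖(2 : ℂ) * (1 - (s : ℂ) * uu)⁻¹‖ ≤ 2 := by
      rw [norm_mul]
      have : ‖(2 : ℂ)‖ = 2 := by norm_num
      rw [this]
      linarith
    linarith
  -- contradiction
  set K : ℝ := 4 * |B| + 4 with hK
  have hK4 : 4 ≤ K := by have := abs_nonneg B; linarith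
  have hq := hlow (1 - 1 / (5 * K)) (by
    have : 1 / (5 * K) ≤ 1 / 2 := by
      apply one_div_le_one_div_of_le <;> linarith
    linarith) (by
    have : 0 < 1 / (5 * K) := by positivity
    linarith)
  have hber : 1 - 1 / K ≤ (1 - 1 / (5 * K)) ^ 5 := by
    have h1 : (-2 : ℝ) ≤ -(1 / (5 * K)) := by
      have : 1 / (5 * K) ≤ 1 / 2 := by
        apply one_div_le_one_div_of_le <;> linarith
      linarith
    have h2 := one_add_mul_le_pow h1 5
    have h3 : (1 : ℝ) + ((5 : ℕ) : ℝ) * -(1 / (5 * K)) = 1 - 1 / K := by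
      push_cast; field_simp; ring
    rw [h3] at h2
    exact h2
  have hpos : 0 < 1 - (1 - 1 / (5 * K)) ^ 5 := by
    have h1 : 0 < 1 / (5 * K) := by positivity
    have h2 : (1 - 1 / (5 * K)) ^ 5 < 1 := pow_lt_one₀ (by
      have : 1 / (5 * K) ≤ 1 / 2 := by
        apply one_div_le_one_div_of_le <;> linarith
      linarith) (by linarith) (by norm_num)
    linarith
  have h1 : K ≤ (1 - (1 - 1 / (5 * K)) ^ 5)⁻¹ := by
    rw [le_inv_comm₀ (by linarith) hpos]
    have : K⁻¹ = 1 / K := (one_div K).symm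
    rw [this]
    linarith
  have h2 := le_abs_self B
  linarith

/-- There are a finite alphabet and a language over it whose characteristic series in commuting
variables is rational over `ℕ` while the one of the complement is not. -/
theorem result : ∃ (σ : Type) (_ : Finite σ) (L : Set (List σ)),
    Rat (chi L) ∧ ¬ Rat (chi Lᶜ) := by
  obtain ⟨K, hK, hKU⟩ := exists_lang
  obtain ⟨S, hS, hU⟩ := U_split
  refine ⟨Fin 2, inferInstance, Kᶜ, ?_, ?_⟩
  · have : chi Kᶜ = S := by
      ext m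
      have h1 := congrArg (coeff m) (hKU.trans hU)
      rw [map_add, map_add, hK] at h1
      omega
    rw [this]; exact hS
  · rw [compl_compl, hK]
    exact not_rat

end Pool.Agent.Results.MP_2e66a2_lc.ComplementNotRational
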